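import Pool.Agent.V7H20.PP2.Growth
import Pool.Agent.V7H20.PP.Crit

/-!
# The criterion in terms of runs
-/

set_option autoImplicit false

namespace Pool.Agent.V7H20.PP2

open FreeGroup (of lift mk)
open Pool.Agent.V7H20.PP (IsPositive PotentiallyPositive positive_of_mem SmallAfter
  smallAfter_cons_self smallAfter_cons not_smallAfter_nil)

variable {r : ℕ}

/-- `l` starts with `t + 1` letters `x (i+1)` followed by a letter `y` of index `≤ i`; if
`y = x j ⁻¹`, then this letter is separated by letters `x j ⁻¹` only from a letter of index `< j`
after it. -/
def Padded (i : Fin r) (l : List (Fin r × Bool)) : Prop :=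
  ∃ (t : ℕ) (k : Fin r) (y : Fin r × Bool) (l' : List (Fin r × Bool)), (k : ℕ) = i + 1 ∧
    l = List.replicate (t + 1) (k, true) ++ y :: l' ∧ y.1 ≤ i ∧ (y.2 = false → SmallAfter y.1 l')

/-- Each letter `x i ⁻¹` of `l` is separated by letters `x i ⁻¹` only from a letter
`x j ^ (±1)` with `j < i`, on the left or on the right, or it is padded on both sides. -/
def Guarded (l : List (Fin r × Bool)) : Prop :=
  ∀ (u v : List (Fin r × Bool)) (i : Fin r), l = u ++ (i, false) :: v →
    SmallAfter i u.reverse ∨ SmallAfter i v ∨ (Padded i u.reverse ∧ Padded i v)

lemma not_padded_nil (i : Fin r) : ¬ Padded i ([] : List (Fin r × Bool)) := by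
  rintro ⟨t, k, y, l', _, h, _⟩
  simp at h

lemma padded_head {i : Fin r} {y : Fin r × Bool} {l : List (Fin r × Bool)} (h : Padded i (y :: l)) :
    (y.1 : ℕ) = i + 1 ∧ y.2 = true := by
  obtain ⟨t, k, z, l', hk, h, _⟩ := h
  rw [List.replicate_succ, List.cons_append, List.cons.injEq] at h
  rw [h.1]
  exact ⟨hk, rfl⟩

lemma padded_cons (i k : Fin r) (hk : (k : ℕ) = i + 1) (y : Fin r × Bool) (l : List (Fin r × Bool)) :
    Padded i ((k, true) :: y :: l) ↔
      (y.1 ≤ i ∧ (y.2 = false → SmallAfter y.1 l)) ∨ Padded i (y :: l) := by
  constructor
  · rintro ⟨t, k', z, l', hk', h, hz, hz'⟩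
    obtain rfl : k' = k := Fin.ext (by rw [hk, hk'])
    rw [List.replicate_succ, List.cons_append, List.cons.injEq] at h
    cases t with
    | zero =>
      have h2 := h.2
      simp only [List.replicate_zero, List.nil_append, List.cons.injEq] at h2
      left
      rw [h2.1, h2.2]
      exact ⟨hz, hz'⟩
    | succ t =>
      right
      exact ⟨t, k', z, l', hk', h.2, hz, hz'⟩
  · rintro (⟨hz, hz'⟩ | ⟨t, k', z, l', hk', h, hz, hz'⟩)
    · exact ⟨0, k, y, l, hk, rfl, hz, hz'⟩
    · obtain rfl : k' = k := Fin.ext (by rw [hk, hk'])
      exact ⟨t + 1, k', z, l', hk', by rw [List.replicate_succ, List.cons_append, h], hz, hz'⟩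

/-- what the state knows about the word before and after it -/
structure Know (s : Fin r × Fin 6) (q l : List (Fin r × Bool)) : Prop where
  k0 : s.2 = 0 → ∀ i : Fin r, ¬ Padded i (lt' s :: q)
  k1 : s.2 = 1 → SmallAfter s.1 (lt' s :: q)
  k2 : s.2 = 2 → SmallAfter s.1 l
  k3 : s.2 = 3 → ∀ i : Fin r, (s.1 : ℕ) = i + 1 → Padded i (lt' s :: q)
  k4 : s.2 = 4 → SmallAfter s.1 l ∨ Padded s.1 l
  k5 : s.2 = 5 → ∃ i : Fin r, (s.1 : ℕ) = i + 1 ∧ Padded i ((s.1, true) :: l)

lemma know0 {j : Fin r} {q l : List (Fin r × Bool)}
    (h : ∀ i : Fin r, ¬ Padded i ((j, true) :: q)) : Know (j, 0) q l :=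
  ⟨fun _ => h, fun h => by simp at h, fun h => by simp at h, fun h => by simp at h,
    fun h => by simp at h, fun h => by simp at h⟩

lemma know2 {j : Fin r} {q l : List (Fin r × Bool)} (h : SmallAfter j l) : Know (j, 2) q l :=
  ⟨fun h => by simp at h, fun h => by simp at h, fun _ => h, fun h => by simp at h,
    fun h => by simp at h, fun h => by simp at h⟩

lemma know1 {j : Fin r} {q l : List (Fin r × Bool)} (h : SmallAfter j q) : Know (j, 1) q l :=
  ⟨fun h => by simp at h, fun _ => (smallAfter_cons_self j q).2 h, fun h => by simp at h,
    fun h => by simp at h, fun h => by simp at h, fun h => by simp at h⟩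

/-- after a larger letter, a positive letter leads to the state `0` -/
lemma know0_of_lt {j : Fin r} {y : Fin r × Bool} {q l : List (Fin r × Bool)} (h : j < y.1) :
    Know (j, 0) (y :: q) l := by
  refine know0 fun i hi => ?_
  have h1 := (padded_head hi).1
  rcases (padded_cons i j h1 y q).1 hi with h2 | h2
  · have h3 := h2.1
    rw [Fin.le_def] at h3
    rw [Fin.lt_def] at h
    simp only at h1
    omega
  · have h3 := (padded_head h2).1
    rw [Fin.lt_def] at h
    simp only at h1
    omega

/-- after a smaller letter, a positive letter leads to the state `3` -/
lemma know3_of_lt {j : Fin r} {y : Fin r × Bool} {q l : List (Fin r × Bool)} (h : y.1 < j)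
    (hy : y.2 = false → SmallAfter y.1 q) : Know (j, 3) (y :: q) l := by
  refine ⟨fun h => by simp at h, fun h => by simp at h, fun h => by simp at h, fun _ i hi => ?_,
    fun h => by simp at h, fun h => by simp at h⟩
  refine (padded_cons i j hi y q).2 (Or.inl ⟨?_, hy⟩)
  rw [Fin.lt_def] at h
  rw [Fin.le_def]
  simp only at hi
  omega

lemma acc_of_guarded : ∀ (l q : List (Fin r × Bool)) (s : Fin r × Fin 6),
    List.IsChain (fun a b : Fin r × Bool => a.1 = b.1 → a.2 = b.2) (lt' s :: l) →
    Know s q l → Guarded ((lt' s :: q).reverse ++ l) → acc s l := by
  intro l
  induction l with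
  | nil =>
    intro q s _ hK _
    obtain ⟨i, f⟩ := s
    fin_cases f
    · exact Or.inl rfl
    · exact Or.inr (Or.inr rfl)
    · exact absurd (hK.k2 rfl) (not_smallAfter_nil i)
    · exact Or.inr (Or.inl rfl)
    · exfalso
      rcases hK.k4 rfl with h | h
      · exact not_smallAfter_nil i h
      · exact not_padded_nil i h
    · exfalso
      obtain ⟨j, hj, t, k, y, l', hk, h, _⟩ := hK.k5 rfl
      have := congrArg List.length h
      simp at this
      omega
  | cons a l ih =>
    intro q s hch hK hG
    obtain ⟨j, b⟩ := a
    obtain ⟨i, f⟩ := s
    rw [List.isChain_cons_cons] at hch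
    obtain ⟨hij, hch'⟩ := hch
    have hG' : Guarded (((j, b) :: lt' (i, f) :: q).reverse ++ l) := by
      have e : ((j, b) :: lt' ((i, f) : Fin r × Fin 6) :: q).reverse ++ l =
          (lt' ((i, f) : Fin r × Fin 6) :: q).reverse ++ (j, b) :: l := by
        rw [List.reverse_cons (a := (j, b)), List.append_assoc]
        rfl
      rw [e]
      exact hG
    have hg : b = false → SmallAfter j (lt' (i, f) :: q) ∨ SmallAfter j l ∨
        (Padded j (lt' (i, f) :: q) ∧ Padded j l) := by
      rintro rfl
      have := hG (lt' (i, f) :: q).reverse l j rfl
      rwa [List.reverse_reverse] at this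
    have go : ∀ s' : Fin r × Fin 6, lt' s' = (j, b) → step (i, f) (j, b) = some s' →
        Know s' (lt' (i, f) :: q) l → acc (i, f) ((j, b) :: l) := by
      intro s' h1 h2 h3
      refine ⟨s', h2, ih (lt' (i, f) :: q) s' ?_ h3 ?_⟩
      · rw [h1]
        exact hch'
      · rw [h1]
        exact hG'
    -- a positive letter after a letter of larger index
    have pos_lt : b = true → j < i → step (i, f) (j, b) = some (j, 0) → acc (i, f) ((j, b) :: l) := by
      rintro rfl h hst
      exact go (j, 0) rfl hst (know0_of_lt (y := lt' (i, f)) h)
    -- an inverse letter after an inverse letter of larger index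
    have neg_lt : b = false → j < i → (lt' (i, f)).2 = false → step (i, f) (j, b) = some (j, 2) →
        acc (i, f) ((j, b) :: l) := by
      rintro rfl h hf hst
      refine go (j, 2) rfl hst (know2 ?_)
      rcases hg rfl with h1 | h1 | h1
      · rw [smallAfter_cons j _ _ (fun h' => by
          have := congrArg Prod.fst h'
          exact h.ne' this)] at h1
        exact absurd h1 (not_lt.2 h.le)
      · exact h1
      · have := (padded_head h1.1).2
        rw [hf] at this
        exact absurd this (by simp)
    have hne : (lt' (i, f)).2 ≠ b → j ≠ i := fun h h' => h (hij h'.symm)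
    by_cases h03 : f = 0 ∨ f = 3
    · have hlt : (lt' (i, f)).2 = true := by
        rcases h03 with rfl | rfl <;> simp [lt']
      cases b
      · have hji : j ≠ i := hne (by rw [hlt]; simp)
        rcases lt_or_gt_of_ne hji with h | h
        · have hnS : ¬ SmallAfter j (lt' (i, f) :: q) := by
            rw [smallAfter_cons j _ _ (fun h' => by
              have := congrArg Prod.snd h'
              rw [hlt] at this
              simp at this)]
            exact not_lt.2 h.le
          have hS := (hg rfl).resolve_left hnS
          by_cases h4 : f = 3 ∧ (i : ℕ) = j + 1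
          · refine go (j, 4) rfl ?_ ?_
            · unfold PP2.step
              rw [if_pos h03]
              simp only [Bool.false_eq_true, if_false]
              rw [if_neg hji, if_neg (not_lt.2 h.le), if_pos h4]
            · exact ⟨fun h => by simp at h, fun h => by simp at h, fun h => by simp at h,
                fun h => by simp at h, fun _ => hS.imp_right And.right, fun h => by simp at h⟩
          · refine go (j, 2) rfl ?_ (know2 ?_)
            · unfold PP2.step
              rw [if_pos h03]
              simp only [Bool.false_eq_true, if_false]
              rw [if_neg hji, if_neg (not_lt.2 h.le), if_neg h4]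
            · rcases hS with hS | hS
              · exact hS
              · exfalso
                have h5 := (padded_head hS.1).1
                rcases h03 with rfl | rfl
                · exact hK.k0 rfl j hS.1
                · exact h4 ⟨rfl, h5⟩
        · refine go (j, 1) rfl ?_ (know1 ?_)
          · unfold PP2.step
            rw [if_pos h03]
            simp only [Bool.false_eq_true, if_false]
            rw [if_neg hji, if_pos h]
          · rw [smallAfter_cons j _ _ (fun h' => by
              have := congrArg Prod.snd h'
              rw [hlt] at this
              simp at this)]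
            exact h
      · rcases lt_trichotomy j i with h | h | h
        · refine pos_lt rfl h ?_
          unfold PP2.step
          rw [if_pos h03]
          simp only [if_true]
          rw [if_neg h.ne, if_neg (not_lt.2 h.le)]
        · subst h
          refine go (j, f) ?_ ?_ ?_
          · rcases h03 with rfl | rfl <;> simp [lt']
          · unfold PP2.step
            rw [if_pos h03]
            simp
          · have hlj : lt' (j, f) = (j, true) := by
              rcases h03 with rfl | rfl <;> simp [lt']
            rcases h03 with rfl | rfl
            · refine know0 fun i hi => ?_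
              have h1 := (padded_head hi).1
              rcases (padded_cons i j h1 _ q).1 hi with h2 | h2
              · have h3 := h2.1
                rw [hlj] at h3
                rw [Fin.le_def] at h3
                simp only at h1 h3
                omega
              · exact hK.k0 rfl i h2
            · refine ⟨fun h => by simp at h, fun h => by simp at h, fun h => by simp at h,
                fun _ i hi => ?_, fun h => by simp at h, fun h => by simp at h⟩
              exact (padded_cons i j hi _ q).2 (Or.inr (hK.k3 rfl i hi))
        · refine go (j, 3) rfl ?_ (know3_of_lt h (fun h' => ?_))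
          · unfold PP2.step
            rw [if_pos h03]
            simp only [if_true]
            rw [if_neg h.ne', if_pos h]
          · rw [hlt] at h'
            exact absurd h' (by simp)
    · by_cases hf1 : f = 1
      · subst hf1
        have hS := hK.k1 rfl
        have hlt : lt' ((i, 1) : Fin r × Fin 6) = (i, false) := by simp [lt']
        cases b
        · rcases lt_trichotomy j i with h | h | h
          · exact neg_lt rfl h (by simp [lt']) (by simp [PP2.step, h.ne, not_lt.2 h.le])
          · subst h
            exact go (j, 1) rfl (by simp [PP2.step]) (know1 hS)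
          · refine go (j, 1) rfl (by simp [PP2.step, h]) (know1 ?_)
            rw [smallAfter_cons j _ _ (fun h' => by
              have := congrArg Prod.fst h'
              exact h.ne this)]
            exact h
        · have hji : j ≠ i := hne (by rw [hlt]; simp)
          rcases lt_or_gt_of_ne hji with h | h
          · exact pos_lt rfl h (by simp [PP2.step, hji, not_lt.2 h.le])
          · refine go (j, 3) rfl (by simp [PP2.step, hji, h]) (know3_of_lt h (fun _ => ?_))
            rw [hlt, smallAfter_cons_self] at hS
            exact hS
      · by_cases hf5 : f = 5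
        · subst hf5
          obtain ⟨i', hi', hP⟩ := hK.k5 rfl
          simp only at hi' hP
          rcases (padded_cons i' i hi' _ l).1 hP with h1 | h1
          · have hji : j < i := by
              have := h1.1
              rw [Fin.le_def] at this
              rw [Fin.lt_def]
              simp only at this
              omega
            cases b
            · exact go (j, 2) rfl (by simp [PP2.step, hji]) (know2 (h1.2 rfl))
            · exact pos_lt rfl hji (by simp [PP2.step, hji, hji.ne])
          · have h2 := padded_head h1
            have hji : j = i := Fin.ext (by rw [hi']; exact h2.1)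
            have hb : b = true := h2.2
            subst hji
            subst hb
            refine go (j, 5) rfl (by simp [PP2.step]) ?_
            exact ⟨fun h => by simp at h, fun h => by simp at h, fun h => by simp at h,
              fun h => by simp at h, fun h => by simp at h, fun _ => ⟨i', hi', h1⟩⟩
        · have hf24 : f = 2 ∨ f = 4 := by
            fin_cases f <;> simp_all
          have hlt : lt' (i, f) = (i, false) := by
            rcases hf24 with rfl | rfl <;> simp [lt']
          by_cases hS : SmallAfter i ((j, b) :: l)
          · rcases eq_or_ne (j, b) (i, false) with h | h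
            · obtain ⟨rfl, rfl⟩ := Prod.mk.inj h
              rw [smallAfter_cons_self] at hS
              refine go (j, 2) rfl ?_ (know2 hS)
              rcases hf24 with rfl | rfl <;> simp [PP2.step]
            · rw [smallAfter_cons i _ _ h] at hS
              simp only at hS
              cases b
              · refine neg_lt rfl hS (by rw [hlt]) ?_
                rcases hf24 with rfl | rfl <;> simp [PP2.step, hS]
              · refine pos_lt rfl hS ?_
                rcases hf24 with rfl | rfl <;> simp [PP2.step, hS]
          · rcases hf24 with rfl | rfl
            · exact absurd (hK.k2 rfl) hS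
            · have hP := (hK.k4 rfl).resolve_left hS
              obtain ⟨h1, h2⟩ := padded_head hP
              simp only at h1 h2
              subst h2
              have hnl : ¬ j < i := by
                rw [Fin.lt_def]
                omega
              refine go (j, 5) rfl (by simp [PP2.step, hnl, h1]) ?_
              exact ⟨fun h => by simp at h, fun h => by simp at h, fun h => by simp at h,
                fun h => by simp at h, fun h => by simp at h, fun _ => ⟨i, h1, hP⟩⟩

/-- **Guarded words are potentially positive.** -/
theorem pp_of_guarded (u : FreeGroup (Fin r)) (hu : Guarded u.toWord) : PotentiallyPositive u := by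
  have hred := FreeGroup.isReduced_toWord (x := u)
  have hmk : mk u.toWord = u := FreeGroup.mk_toWord
  cases hw : u.toWord with
  | nil =>
    rw [FreeGroup.toWord_eq_nil_iff] at hw
    refine ⟨MulEquiv.refl _, ?_⟩
    subst hw
    intro a ha
    simp at ha
  | cons a l =>
    rw [hw] at hu hred hmk
    obtain ⟨i, b⟩ := a
    rw [← hmk]
    cases b
    · obtain ⟨β, L, R, h⟩ := exists_data (r := r) (l.length + 1) r 0 rfl
      refine ⟨β.trans (theta r), positive_of_mem (theta_mem ?_)⟩
      have hacc : acc (i, 2) l := by
        refine acc_of_guarded l [] (i, 2) hred (know2 ?_) hu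
        rcases hu [] l i rfl with h | h | h
        · exact absurd h (not_smallAfter_nil i)
        · exact h
        · exact absurd h.1 (not_padded_nil i)
      have hI : Inv β L R (l.length + 1) 1 (i, 2) (β (of i)⁻¹) := by
        refine ⟨fun h => by simp at h, fun h => by simp at h, fun _ => ⟨1, le_rfl, ?_⟩,
          fun h => by simp at h, fun h => by simp at h, fun h => by simp at h⟩
        rw [map_inv, pow_one, inv_mul_cancel, one_mul]
        exact (h.2.2.2 _ (Nat.zero_le _) i.2).1
      have h1 := acc_mem h l 1 (i, 2) _ (by omega) hI hacc
      have h2 : ltr ((i, false) : Fin r × Bool) = (of i)⁻¹ := by simp [ltr]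
      rwa [← map_mul, ← h2, ← mk_cons] at h1
    · refine pp_of_acc i l (acc_of_guarded l [] (i, 0) hred (know0 fun j hj => ?_) hu)
      obtain ⟨t, k, y, l', hk, h, _⟩ := hj
      have := congrArg List.length h
      simp at this
      omega

end Pool.Agent.V7H20.PP2
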