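import Pool.Agent.V7H20.PP2.Fam
import Pool.Agent.V7H20.PP.Growth

/-!
# Counting the accepted words
-/

set_option autoImplicit false

namespace Pool.Agent.V7H20.PP2

open FreeGroup (of lift mk)
open Finset
open Pool.Agent.V7H20.PP (IsPositive PotentiallyPositive p positive_of_mem finite_norm)

variable {r : ℕ}

/-- the generator `k`, or `1` for `k ≥ r` -/
def X (r k : ℕ) : FreeGroup (Fin r) := if h : k < r then of ⟨k, h⟩ else 1

/-- `x 0`, `T k * x (k+1) * T k` -/
def T (r : ℕ) : ℕ → FreeGroup (Fin r)
  | 0 => X r 0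
  | k + 1 => T r k * X r (k + 1) * T r k

/-- the images of the inverse -/
def I (r : ℕ) : ℕ → FreeGroup (Fin r)
  | 0 => X r 0
  | k + 1 => (X r k)⁻¹ * X r (k + 1) * (X r k)⁻¹

lemma X_fin (j : Fin r) : X r j = of j := by
  unfold X
  rw [dif_pos j.2]

lemma lift_X (F : ℕ → FreeGroup (Fin r)) {k : ℕ} (hk : k < r) :
    lift (fun j : Fin r => F j) (X r k) = F k := by
  unfold X
  rw [dif_pos hk, FreeGroup.lift_apply_of]

lemma theta_I : ∀ k : ℕ, k < r → lift (fun j : Fin r => T r j) (I r k) = X r k := by
  intro k hk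
  cases k with
  | zero =>
    change lift (fun j : Fin r => T r j) (X r 0) = X r 0
    rw [lift_X (T r) hk]
    rfl
  | succ k =>
    change lift (fun j : Fin r => T r j) ((X r k)⁻¹ * X r (k + 1) * (X r k)⁻¹) = X r (k + 1)
    rw [map_mul, map_mul, map_inv, lift_X (T r) hk, lift_X (T r) (by omega)]
    change (T r k)⁻¹ * (T r k * X r (k + 1) * T r k) * (T r k)⁻¹ = X r (k + 1)
    group

lemma iota_T : ∀ k : ℕ, k < r → lift (fun j : Fin r => I r j) (T r k) = X r k := by
  intro k
  induction k with
  | zero =>
    intro hk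
    change lift (fun j : Fin r => I r j) (X r 0) = X r 0
    rw [lift_X (I r) hk]
    rfl
  | succ k ih =>
    intro hk
    change lift (fun j : Fin r => I r j) (T r k * X r (k + 1) * T r k) = X r (k + 1)
    rw [map_mul, map_mul, lift_X (I r) hk, ih (by omega)]
    change X r k * ((X r k)⁻¹ * X r (k + 1) * (X r k)⁻¹) * X r k = X r (k + 1)
    group

/-- the automorphism which makes the isolated inverse letters positive -/
noncomputable def theta (r : ℕ) : FreeGroup (Fin r) ≃* FreeGroup (Fin r) :=
  MonoidHom.toMulEquiv (lift fun j : Fin r => T r j) (lift fun j : Fin r => I r j)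
    (by
      ext j
      rw [MonoidHom.comp_apply, FreeGroup.lift_apply_of, iota_T j j.2, X_fin]
      rfl)
    (by
      ext j
      rw [MonoidHom.comp_apply, FreeGroup.lift_apply_of, theta_I j j.2, X_fin]
      rfl)

lemma theta_of (j : Fin r) : theta r (of j) = T r j := by
  change lift (fun j : Fin r => T r j) (of j) = T r j
  rw [FreeGroup.lift_apply_of]

lemma X_mem (k : ℕ) : X r k ∈ PP.M r := by
  unfold X
  split_ifs
  · exact PP.of_mem _
  · exact one_mem _

lemma T_mem : ∀ k : ℕ, T r k ∈ PP.M r := by
  intro k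
  induction k with
  | zero => exact X_mem 0
  | succ k ih => exact mul_mem (mul_mem ih (X_mem _)) ih

lemma theta_mem {g : FreeGroup (Fin r)} (hg : g ∈ M r) : theta r g ∈ PP.M r := by
  induction hg using Submonoid.closure_induction with
  | mem x hx =>
    rcases hx with ⟨j, rfl⟩ | ⟨i, k, hk, rfl⟩
    · rw [theta_of]
      exact T_mem _
    · have h1 : theta r (of k * (of i)⁻¹ * of k) = T r i * X r (i + 1) * T r i * X r (i + 1) * T r i := by
        rw [map_mul, map_mul, map_inv, theta_of, theta_of, hk]
        change T r i * X r (i + 1) * T r i * (T r i)⁻¹ * (T r i * X r (i + 1) * T r i) = _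
        group
      rw [h1]
      exact mul_mem (mul_mem (mul_mem (mul_mem (T_mem _) (X_mem _)) (T_mem _)) (X_mem _)) (T_mem _)
  | one =>
    rw [map_one]
    exact one_mem _
  | mul x y _ _ hx hy =>
    rw [map_mul]
    exact mul_mem hx hy

/-- the word is accepted from the state `s` -/
def acc : Fin r × Fin 6 → List (Fin r × Bool) → Prop
  | s, [] => s.2 = 0 ∨ s.2 = 3 ∨ s.2 = 1
  | s, a :: l => ∃ s', step s a = some s' ∧ acc s' l

lemma mk_cons (a : Fin r × Bool) (l : List (Fin r × Bool)) : mk (a :: l) = ltr a * mk l := by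
  obtain ⟨j, b⟩ := a
  have h : ltr (j, b) = mk [(j, b)] := by
    cases b
    · simp only [ltr, Bool.false_eq_true, if_false]
      rfl
    · simp only [ltr, if_true]
      rfl
  rw [h, FreeGroup.mul_mk]
  rfl

lemma acc_mem {N : ℕ} {β : FreeGroup (Fin r) ≃* FreeGroup (Fin r)} {L R : ℕ → FreeGroup (Fin r)}
    (h : Data N 0 β L R) : ∀ (l : List (Fin r × Bool)) (n : ℕ) (s : Fin r × Fin 6)
    (g : FreeGroup (Fin r)), n + l.length ≤ N → Inv β L R N n s g → acc s l → g * β (mk l) ∈ M r := by
  intro l
  induction l with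
  | nil =>
    intro n s g hn hI hl
    have h1 := hI.mem h (by simpa using hn) hl
    have h2 : (mk [] : FreeGroup (Fin r)) = 1 := rfl
    rwa [h2, map_one, mul_one]
  | cons a l ih =>
    intro n s g hn hI hl
    obtain ⟨s', hs, hl'⟩ := hl
    rw [List.length_cons] at hn
    have h1 := ih (n + 1) s' _ (by omega) (hI.step h (by omega) hs) hl'
    rwa [mul_assoc, ← map_mul, ← mk_cons] at h1

/-- the letter before the state `s` -/
def lt' (s : Fin r × Fin 6) : Fin r × Bool := (s.1, decide (s.2 = 0 ∨ s.2 = 3 ∨ s.2 = 5))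

lemma step_lt {s s' : Fin r × Fin 6} {a : Fin r × Bool} (hs : step s a = some s') :
    ((lt' s).1 = a.1 → (lt' s).2 = a.2) ∧ lt' s' = a := by
  obtain ⟨j, b⟩ := a
  obtain ⟨i, f⟩ := s
  unfold PP2.step at hs
  have hs' := hs
  clear hs
  rcases eq_or_ne j i with rfl | hji
  · cases b <;> fin_cases f <;> simp at hs' <;> subst hs' <;> simp [lt']
  · have hij : ¬ i = j := fun h => hji h.symm
    refine ⟨fun h => absurd h hij, ?_⟩
    simp only [hji, if_false, false_or] at hs'
    split_ifs at hs' <;> obtain rfl := Option.some.inj hs' <;> simp_all [lt']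

lemma acc_chain : ∀ (l : List (Fin r × Bool)) (s : Fin r × Fin 6), acc s l →
    List.IsChain (fun a b : Fin r × Bool => a.1 = b.1 → a.2 = b.2) (lt' s :: l) := by
  intro l
  induction l with
  | nil => exact fun s _ => List.isChain_singleton _
  | cons a l ih =>
    intro s hl
    obtain ⟨s', hs, hl'⟩ := hl
    obtain ⟨h1, h2⟩ := step_lt hs
    rw [List.isChain_cons_cons]
    refine ⟨h1, ?_⟩
    have := ih s' hl'
    rwa [h2] at this

/-- **Accepted words are potentially positive.** -/
theorem pp_of_acc (i : Fin r) (l : List (Fin r × Bool)) (hl : acc (i, 0) l) :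
    PotentiallyPositive (mk ((i, true) :: l)) := by
  obtain ⟨β, L, R, h⟩ := exists_data (r := r) (l.length + 1) r 0 rfl
  refine ⟨β.trans (theta r), positive_of_mem (theta_mem ?_)⟩
  have hI : Inv β L R (l.length + 1) 1 (i, 0) (β (of i)) := by
    refine ⟨fun _ => ⟨L (i + 1) * of i, mul_mem (h.2.2.2 _ (Nat.zero_le _) i.2).1 (of_mem i), ?_⟩,
      fun h => by simp at h, fun h => by simp at h, fun h => by simp at h, fun h => by simp at h,
      fun h => by simp at h⟩
    exact h.2.1 i (Nat.zero_le _)
  have h1 := acc_mem h l 1 (i, 0) _ (by omega) hI hl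
  rwa [← map_mul, show of i = ltr (i, true) from rfl, ← mk_cons] at h1

lemma word_of_acc (i : Fin r) (l : List (Fin r × Bool)) (hl : acc (i, 0) l) :
    (mk ((i, true) :: l)).toWord = (i, true) :: l := by
  have h1 : FreeGroup.IsReduced ((i, true) :: l) := by
    have := acc_chain l (i, 0) hl
    simpa [lt', FreeGroup.IsReduced] using this
  rw [FreeGroup.toWord_mk, h1.reduce_eq]

/-- the number of accepted words of length `n` -/
def cnt : ℕ → Fin r × Fin 6 → ℕ
  | 0, s => if s.2 = 0 ∨ s.2 = 3 ∨ s.2 = 1 then 1 else 0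
  | n + 1, s => ∑ a : Fin r × Bool, (step s a).elim 0 (cnt n)

/-- the accepted words of length `n` -/
def words : ℕ → Fin r × Fin 6 → Finset (List (Fin r × Bool))
  | 0, s => if s.2 = 0 ∨ s.2 = 3 ∨ s.2 = 1 then {[]} else ∅
  | n + 1, s => univ.biUnion fun a : Fin r × Bool =>
      (step s a).elim ∅ fun s' => (words n s').image (List.cons a)

lemma mem_words : ∀ (n : ℕ) (s : Fin r × Fin 6) (l : List (Fin r × Bool)),
    l ∈ words n s → l.length = n ∧ acc s l := by
  intro n
  induction n with
  | zero =>
    intro s l hl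
    unfold words at hl
    split_ifs at hl with h
    · rw [mem_singleton] at hl
      subst hl
      exact ⟨rfl, h⟩
    · simp at hl
  | succ n ih =>
    intro s l hl
    unfold words at hl
    rw [mem_biUnion] at hl
    obtain ⟨a, -, ha⟩ := hl
    cases hs : step s a with
    | none =>
      rw [hs] at ha
      simp at ha
    | some s' =>
      rw [hs] at ha
      simp only [Option.elim, mem_image] at ha
      obtain ⟨l', hl', rfl⟩ := ha
      obtain ⟨h1, h2⟩ := ih s' l' hl'
      exact ⟨by rw [List.length_cons, h1], s', hs, h2⟩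

lemma card_words : ∀ (n : ℕ) (s : Fin r × Fin 6), (words n s).card = cnt n s := by
  intro n
  induction n with
  | zero =>
    intro s
    unfold words cnt
    split_ifs <;> simp
  | succ n ih =>
    intro s
    unfold words cnt
    rw [card_biUnion]
    · refine sum_congr rfl fun a _ => ?_
      cases hs : step s a with
      | none => simp
      | some s' =>
        simp only [Option.elim]
        rw [card_image_of_injective _ (List.cons_injective), ih]
    · intro a _ b _ hab
      rw [Function.onFun, disjoint_left]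
      intro l hl hl'
      have key : ∀ c : Fin r × Bool, l ∈ (step s c).elim ∅ (fun s' => (words n s').image (List.cons c)) →
          ∃ l', l = c :: l' := by
        intro c hc
        cases hs : step s c with
        | none => rw [hs] at hc; simp at hc
        | some s' =>
          rw [hs] at hc
          simp only [Option.elim, mem_image] at hc
          obtain ⟨l', _, h⟩ := hc
          exact ⟨l', h.symm⟩
      obtain ⟨l1, h1⟩ := key a hl
      obtain ⟨l2, h2⟩ := key b hl'
      rw [h1] at h2
      exact hab (List.cons.inj h2).1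

/-- lower bound for the number of accepted words -/
lemma cnt_ge (v : Fin r × Fin 6 → ℕ) (A B V : ℕ) (hV : ∀ s, v s ≤ V * cnt 2 s)
    (hv : ∀ s, A * v s ≤ B * ∑ a : Fin r × Bool, (step s a).elim 0 v) :
    ∀ (n : ℕ) (s : Fin r × Fin 6), A ^ n * v s ≤ B ^ n * (V * cnt (n + 2) s) := by
  intro n
  induction n with
  | zero => simpa using hV
  | succ n ih =>
    intro s
    have h1 : cnt (n + 1 + 2) s = ∑ a : Fin r × Bool, (step s a).elim 0 (cnt (n + 2)) := rfl
    have h2 : A ^ n * ∑ a : Fin r × Bool, (step s a).elim 0 v ≤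
        B ^ n * (V * ∑ a : Fin r × Bool, (step s a).elim 0 (cnt (n + 2))) := by
      rw [mul_sum, mul_sum, mul_sum]
      refine sum_le_sum fun a _ => ?_
      cases step s a with
      | none => simp
      | some s' => exact ih s'
    calc A ^ (n + 1) * v s = A ^ n * (A * v s) := by ring
      _ ≤ A ^ n * (B * ∑ a : Fin r × Bool, (step s a).elim 0 v) := Nat.mul_le_mul_left _ (hv s)
      _ = B * (A ^ n * ∑ a : Fin r × Bool, (step s a).elim 0 v) := by ring
      _ ≤ B * (B ^ n * (V * ∑ a : Fin r × Bool, (step s a).elim 0 (cnt (n + 2)))) :=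
          Nat.mul_le_mul_left _ h2
      _ = B ^ (n + 1) * (V * cnt (n + 1 + 2) s) := by rw [h1]; ring

lemma cnt_le_p (i : Fin r) (n : ℕ) : cnt n (i, 0) ≤ p r (n + 1) := by
  classical
  rw [← card_words, ← Set.ncard_coe_finset]
  have hinj : Set.InjOn (fun l : List (Fin r × Bool) => mk ((i, true) :: l)) (words n (i, 0)) := by
    intro l hl l' hl' h
    have h1 := word_of_acc i l (mem_words n _ l hl).2
    have h2 := word_of_acc i l' (mem_words n _ l' hl').2
    simp only at h
    rw [h, h2] at h1
    exact ((List.cons.inj h1).2).symm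
  rw [← hinj.ncard_image]
  refine Set.ncard_le_ncard ?_ ((finite_norm r (n + 1)).subset fun u hu => hu.1)
  rintro _ ⟨l, hl, rfl⟩
  have hm := mem_words n _ l hl
  refine ⟨?_, pp_of_acc i l hm.2⟩
  change (mk ((i, true) :: l)).toWord.length = n + 1
  rw [word_of_acc i l hm.2, List.length_cons, hm.1]

end Pool.Agent.V7H20.PP2
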