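import Mathlib

/-!
# Potentially positive words in a free group: runs of inverse letters with a smaller neighbour

The letters of `FreeGroup (Fin r)` are ordered by the index.
-/

set_option autoImplicit false

namespace Pool.Agent.V7H20.PP2

open FreeGroup (of lift)

variable {r : ℕ}

/-- products of generators and of elements `x (i+1) * x i ⁻¹ * x (i+1)` -/
def M (r : ℕ) : Submonoid (FreeGroup (Fin r)) := Submonoid.closure
  {g | (∃ j, g = FreeGroup.of j) ∨ ∃ i k : Fin r, (k : ℕ) = i + 1 ∧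
    g = FreeGroup.of k * (FreeGroup.of i)⁻¹ * FreeGroup.of k}

lemma of_mem (j : Fin r) : of j ∈ M r := Submonoid.subset_closure (Or.inl ⟨j, rfl⟩)

lemma iso_mem {i k : Fin r} (h : (k : ℕ) = i + 1) : of k * (of i)⁻¹ * of k ∈ M r :=
  Submonoid.subset_closure (Or.inr ⟨i, k, h, rfl⟩)

/-- `x j ↦ x k ^ N * x j * x k ^ N` for `j < k` -/
noncomputable def al (k : Fin r) (N : ℤ) : FreeGroup (Fin r) →* FreeGroup (Fin r) :=
  lift fun j => if j < k then of k ^ N * of j * of k ^ N else of j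

lemma al_of (k : Fin r) (N : ℤ) (j : Fin r) :
    al k N (of j) = if j < k then of k ^ N * of j * of k ^ N else of j := by
  simp [al]

lemma al_al (k : Fin r) (N : ℤ) : (al k (-N)).comp (al k N) = MonoidHom.id _ := by
  ext j
  rw [MonoidHom.comp_apply, al_of, MonoidHom.id_apply]
  have hk : al k (-N) (of k) = of k := by
    rw [al_of, if_neg (lt_irrefl k)]
  split_ifs with h
  · rw [map_mul, map_mul, map_zpow, hk, al_of, if_pos h]
    group
  · rw [al_of, if_neg h]

/-- the automorphism `al` -/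
noncomputable def alE (k : Fin r) (N : ℤ) : FreeGroup (Fin r) ≃* FreeGroup (Fin r) :=
  MonoidHom.toMulEquiv (al k N) (al k (-N)) (al_al k N) (by
    have := al_al k (-N)
    rwa [neg_neg] at this)

lemma alE_of (k : Fin r) (N : ℤ) (j : Fin r) :
    alE k N (of j) = if j < k then of k ^ N * of j * of k ^ N else of j := al_of k N j

/-- the data after the automorphisms of the indices `≥ k` -/
def Data (N k : ℕ) (β : FreeGroup (Fin r) ≃* FreeGroup (Fin r)) (L R : ℕ → FreeGroup (Fin r)) : Prop :=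
  (∀ j : Fin r, (j : ℕ) < k → β (of j) = L k * of j * R k) ∧
  (∀ j : Fin r, k ≤ (j : ℕ) → β (of j) = L (j + 1) * of j * R (j + 1)) ∧
  (∀ j : Fin r, k ≤ (j : ℕ) → L j = β (of j) ^ N * L (j + 1) ∧ R j = R (j + 1) * β (of j) ^ N) ∧
  ∀ i, k ≤ i → i ≤ r → L i ∈ M r ∧ R i ∈ M r

lemma exists_data (N : ℕ) : ∀ n k : ℕ, n + k = r → ∃ β L R, Data (r := r) N k β L R := by
  intro n
  induction n with
  | zero =>
    intro k hk
    refine ⟨MulEquiv.refl _, fun _ => 1, fun _ => 1, fun j _ => by simp, fun j hj => ?_, fun j hj => ?_,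
      fun i _ _ => ⟨one_mem _, one_mem _⟩⟩
    · exact absurd j.2 (by omega)
    · exact absurd j.2 (by omega)
  | succ n ih =>
    intro k hk
    obtain ⟨β, L, R, h1, h2, h3, h4⟩ := ih (k + 1) (by omega)
    have hkr : k < r := by omega
    set κ : Fin r := ⟨k, hkr⟩ with hκ
    have hκ1 : β (of κ) = L (k + 1) * of κ * R (k + 1) := h1 κ (by simp [hκ])
    have hmem := h4 (k + 1) le_rfl (by omega)
    have hE : β (of κ) ∈ M r := by
      rw [hκ1]
      exact mul_mem (mul_mem hmem.1 (of_mem κ)) hmem.2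
    set β' : FreeGroup (Fin r) ≃* FreeGroup (Fin r) := (alE κ N).trans β with hβ'
    have hge : ∀ j : Fin r, k ≤ (j : ℕ) → β' (of j) = β (of j) := by
      intro j hj
      rw [hβ', MulEquiv.trans_apply, alE_of, if_neg]
      rw [not_lt, Fin.le_def]
      exact hj
    refine ⟨β', fun i => if i = k then β (of κ) ^ N * L (k + 1) else L i,
      fun i => if i = k then R (k + 1) * β (of κ) ^ N else R i, fun j hj => ?_, fun j hj => ?_,
      fun j hj => ?_, fun i hi hi' => ?_⟩
    · beta_reduce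
      rw [hβ', MulEquiv.trans_apply, alE_of, if_pos (Fin.lt_def.2 hj), map_mul, map_mul, map_zpow,
        h1 j (by omega), if_pos rfl, if_pos rfl, zpow_natCast]
      simp only [mul_assoc]
    · have e1 : (j : ℕ) + 1 ≠ k := by omega
      beta_reduce
      rw [hge j hj, if_neg e1, if_neg e1]
      rcases Nat.eq_or_lt_of_le hj with h | h
      · have : j = κ := Fin.ext h.symm
        rw [this]
        exact hκ1
      · exact h2 j h
    · have e1 : (j : ℕ) + 1 ≠ k := by omega
      beta_reduce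
      rw [hge j hj, if_neg e1, if_neg e1]
      rcases Nat.eq_or_lt_of_le hj with h | h
      · have : j = κ := Fin.ext h.symm
        rw [this]
        simp [hκ]
      · have e2 : (j : ℕ) ≠ k := by omega
        rw [if_neg e2, if_neg e2]
        exact h3 j h
    · rcases Nat.eq_or_lt_of_le hi with h | h
      · beta_reduce
        rw [if_pos h.symm, if_pos h.symm]
        exact ⟨mul_mem (pow_mem hE _) hmem.1, mul_mem hmem.2 (pow_mem hE _)⟩
      · have e2 : i ≠ k := by omega
        beta_reduce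
        rw [if_neg e2, if_neg e2]
        exact h4 i h hi'

section Inv

variable {N : ℕ} {β : FreeGroup (Fin r) ≃* FreeGroup (Fin r)} {L R : ℕ → FreeGroup (Fin r)}

lemma E_mem (h : Data N 0 β L R) (j : Fin r) : β (of j) ∈ M r := by
  rw [h.2.1 j (Nat.zero_le _)]
  have h4 := h.2.2.2 (j + 1) (Nat.zero_le _) j.2
  exact mul_mem (mul_mem h4.1 (of_mem j)) h4.2

/-- powers of `E j` times `L (j + 1)` start with `L (j + 1)` -/
lemma pow_L (h : Data N 0 β L R) (j : Fin r) (n : ℕ) :
    ∃ m ∈ M r, β (of j) ^ n * L (j + 1) = L (j + 1) * m := by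
  cases n with
  | zero => exact ⟨1, one_mem _, by simp⟩
  | succ n =>
    have h4 := h.2.2.2 (j + 1) (Nat.zero_le _) j.2
    refine ⟨of j * R (j + 1) * β (of j) ^ n * L (j + 1), mul_mem (mul_mem (mul_mem (of_mem j) h4.2)
      (pow_mem (E_mem h j) n)) h4.1, ?_⟩
    rw [pow_succ']
    nth_rewrite 1 [h.2.1 j (Nat.zero_le _)]
    simp only [mul_assoc]

lemma pow_R (h : Data N 0 β L R) (j : Fin r) (n : ℕ) :
    ∃ m ∈ M r, R (j + 1) * β (of j) ^ n = m * R (j + 1) := by
  cases n with
  | zero => exact ⟨1, one_mem _, by simp⟩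
  | succ n =>
    have h4 := h.2.2.2 (j + 1) (Nat.zero_le _) j.2
    refine ⟨R (j + 1) * β (of j) ^ n * L (j + 1) * of j, mul_mem (mul_mem (mul_mem h4.2
      (pow_mem (E_mem h j) n)) h4.1) (of_mem j), ?_⟩
    rw [pow_succ]
    nth_rewrite 2 [h.2.1 j (Nat.zero_le _)]
    simp only [mul_assoc]

/-- `L i` starts with `L i'` for `i ≤ i'` -/
lemma L_le (h : Data N 0 β L R) : ∀ d i : ℕ, i + d ≤ r → ∃ m ∈ M r, L i = L (i + d) * m := by
  intro d
  induction d with
  | zero => exact fun i _ => ⟨1, one_mem _, by simp⟩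
  | succ d ih =>
    intro i hi
    obtain ⟨m, hm, h1⟩ := ih (i + 1) (by omega)
    have h3 := (h.2.2.1 ⟨i, by omega⟩ (Nat.zero_le _)).1
    obtain ⟨m', hm', h5⟩ := pow_L h ⟨i, by omega⟩ N
    refine ⟨m * m', mul_mem hm hm', ?_⟩
    simp only at h3 h5
    rw [h3, h5, h1, show i + 1 + d = i + (d + 1) by ring, mul_assoc]

lemma R_le (h : Data N 0 β L R) : ∀ d i : ℕ, i + d ≤ r → ∃ m ∈ M r, R i = m * R (i + d) := by
  intro d
  induction d with
  | zero => exact fun i _ => ⟨1, one_mem _, by simp⟩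
  | succ d ih =>
    intro i hi
    obtain ⟨m, hm, h1⟩ := ih (i + 1) (by omega)
    have h3 := (h.2.2.1 ⟨i, by omega⟩ (Nat.zero_le _)).2
    obtain ⟨m', hm', h5⟩ := pow_R h ⟨i, by omega⟩ N
    refine ⟨m' * m, mul_mem hm' hm, ?_⟩
    simp only at h3 h5
    rw [h3, h5, h1, show i + 1 + d = i + (d + 1) by ring, mul_assoc]

/-- a smaller letter absorbs a run of `t ≤ N` inverse letters `i` on its left -/
lemma absorb_L (h : Data N 0 β L R) (i : Fin r) {k t : ℕ} (hk : k ≤ i) (ht : t ≤ N) :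
    ∃ m ∈ M r, L k = β (of i) ^ t * L (i + 1) * m := by
  obtain ⟨d, hd⟩ := Nat.exists_eq_add_of_le hk
  obtain ⟨m, hm, h1⟩ := L_le h d k (by have := i.2; omega)
  obtain ⟨m', hm', h5⟩ := pow_L h i (N - t)
  have h3 := (h.2.2.1 i (Nat.zero_le _)).1
  refine ⟨m' * m, mul_mem hm' hm, ?_⟩
  rw [h1, ← hd, h3, ← mul_assoc, mul_assoc (β (of i) ^ t), ← h5, ← mul_assoc (β (of i) ^ t),
    ← pow_add, Nat.add_sub_cancel' ht]

/-- the letter as an element -/
def ltr (a : Fin r × Bool) : FreeGroup (Fin r) := if a.2 then of a.1 else (of a.1)⁻¹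

/-- the automaton; states: `(i, 0)` after the letter `x i`, `(i, 1)` in a run of `x i ⁻¹` with a
smaller left neighbour, `(i, 2)` in a run of `x i ⁻¹` which must have a smaller right neighbour,
`(i, 3)` in a run of `x i` with a smaller left neighbour, `(i, 4)` after the first `x i ⁻¹` after a
run of `x (i+1)` in the state `3`, `(i, 5)` in a run of `x i` after an isolated `x (i-1) ⁻¹` -/
def step (s : Fin r × Fin 6) (a : Fin r × Bool) : Option (Fin r × Fin 6) :=
  if s.2 = 0 ∨ s.2 = 3 then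
    (if a.2 then (if a.1 = s.1 then some s else if s.1 < a.1 then some (a.1, 3) else some (a.1, 0))
     else (if a.1 = s.1 then none else if s.1 < a.1 then some (a.1, 1)
       else if s.2 = 3 ∧ (s.1 : ℕ) = a.1 + 1 then some (a.1, 4) else some (a.1, 2)))
  else if s.2 = 1 then
    (if a.2 then (if a.1 = s.1 then none else if s.1 < a.1 then some (a.1, 3) else some (a.1, 0))
     else (if a.1 = s.1 ∨ s.1 < a.1 then some (a.1, 1) else some (a.1, 2)))
  else if s.2 = 5 then
    (if a.2 then (if a.1 = s.1 then some s else if a.1 < s.1 then some (a.1, 0) else none)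
     else (if a.1 < s.1 then some (a.1, 2) else none))
  else
    (if a.2 then (if a.1 < s.1 then some (a.1, 0)
      else if s.2 = 4 ∧ (a.1 : ℕ) = s.1 + 1 then some (a.1, 5) else none)
     else (if a.1 = s.1 ∨ a.1 < s.1 then some (a.1, 2) else none))

/-- the invariant -/
structure Inv (β : FreeGroup (Fin r) ≃* FreeGroup (Fin r)) (L R : ℕ → FreeGroup (Fin r)) (N n : ℕ)
    (s : Fin r × Fin 6) (g : FreeGroup (Fin r)) : Prop where
  h0 : s.2 = 0 ∨ s.2 = 3 → ∃ m ∈ M r, g = m * R (s.1 + 1)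
  h1 : s.2 = 1 → ∃ t ≤ n, ∃ m ∈ M r, g * β (of s.1) ^ t = m * R (s.1 + 1) * β (of s.1) ^ N
  h2 : s.2 = 2 ∨ s.2 = 4 → ∃ t ≤ n, g * β (of s.1) ^ t * L (s.1 + 1) ∈ M r
  h3 : s.2 = 3 → ∃ t, ∃ m ∈ M r, g = m * R s.1 * β (of s.1) ^ (t + 1)
  h4 : s.2 = 4 → ∀ k : Fin r, (k : ℕ) = s.1 + 1 → ∃ m ∈ M r, g = m * of k * (of s.1)⁻¹ * (L k)⁻¹
  h5 : s.2 = 5 → g * L s.1 ∈ M r

/-- in the states `0`, `1`, `3` the element ends with `R (i + 1)` -/
lemma Inv.ends (h : Data N 0 β L R) {n : ℕ} (hn : n ≤ N) {s : Fin r × Fin 6} {g : FreeGroup (Fin r)}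
    (hI : Inv β L R N n s g) (hs : s.2 = 0 ∨ s.2 = 3 ∨ s.2 = 1) : ∃ m ∈ M r, g = m * R (s.1 + 1) := by
  have h3 : (s.2 = 0 ∨ s.2 = 3) ∨ s.2 = 1 := by tauto
  rcases h3 with h3 | h3
  · exact hI.h0 h3
  · obtain ⟨t, ht, m, hm, h1⟩ := hI.h1 h3
    obtain ⟨m', hm', h5⟩ := pow_R h s.1 (N - t)
    refine ⟨m * m', mul_mem hm hm', ?_⟩
    have h6 : g = m * R (s.1 + 1) * β (of s.1) ^ N * (β (of s.1) ^ t)⁻¹ := by
      rw [← h1, mul_inv_cancel_right]
    rw [h6, ← Nat.sub_add_cancel (ht.trans hn), pow_add]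
    rw [mul_assoc m, mul_assoc m, ← mul_assoc (R _), h5]
    simp only [mul_assoc, mul_inv_cancel, mul_one]

lemma Inv.mem (h : Data N 0 β L R) {n : ℕ} (hn : n ≤ N) {s : Fin r × Fin 6} {g : FreeGroup (Fin r)}
    (hI : Inv β L R N n s g) (hs : s.2 = 0 ∨ s.2 = 3 ∨ s.2 = 1) : g ∈ M r := by
  obtain ⟨m, hm, h1⟩ := hI.ends h hn hs
  rw [h1]
  exact mul_mem hm (h.2.2.2 _ (Nat.zero_le _) s.1.2).2

/-- the next letter is smaller: it absorbs the run of inverse letters -/
lemma Inv.debt (h : Data N 0 β L R) {n : ℕ} (hn : n ≤ N) {s : Fin r × Fin 6} {g : FreeGroup (Fin r)}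
    (hI : Inv β L R N n s g) (j : Fin r) (hj : s.2 = 2 ∨ s.2 = 4 ∨ s.2 = 5 → j < s.1) :
    g * L (j + 1) ∈ M r := by
  by_cases hs : s.2 = 2 ∨ s.2 = 4
  · obtain ⟨t, ht, h1⟩ := hI.h2 hs
    obtain ⟨m, hm, h2⟩ := absorb_L h s.1 (k := j + 1) (t := t)
      (Fin.lt_def.1 (hj (by tauto))) (ht.trans hn)
    rw [h2, ← mul_assoc, ← mul_assoc]
    exact mul_mem h1 hm
  · by_cases hs5 : s.2 = 5
    · have h1 := hI.h5 hs5
      have hjs : j < s.1 := hj (by tauto)
      obtain ⟨d, hd⟩ := Nat.exists_eq_add_of_le (Fin.lt_def.1 hjs : (j : ℕ) + 1 ≤ s.1)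
      obtain ⟨m, hm, h2⟩ := L_le h d (j + 1) (by have := s.1.2; omega)
      rw [h2, ← hd, ← mul_assoc]
      exact mul_mem h1 hm
    · have h6 : s.2 = 0 ∨ s.2 = 3 ∨ s.2 = 1 := by
        obtain ⟨i, f⟩ := s
        fin_cases f <;> simp_all
      exact mul_mem (hI.mem h hn h6) (h.2.2.2 _ (Nat.zero_le _) j.2).1

lemma ex0 (h : Data N 0 β L R) {g : FreeGroup (Fin r)} (j : Fin r) (hg : g * L (j + 1) ∈ M r) :
    ∃ m ∈ M r, g * β (of j) = m * R (j + 1) := by
  refine ⟨g * L (j + 1) * of j, mul_mem hg (of_mem j), ?_⟩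
  rw [h.2.1 j (Nat.zero_le _)]
  simp only [mul_assoc]

lemma inv_pos (h : Data N 0 β L R) {n : ℕ} (hn : n ≤ N) {s : Fin r × Fin 6} {g : FreeGroup (Fin r)}
    (hI : Inv β L R N n s g) (j : Fin r) (hj : s.2 = 2 ∨ s.2 = 4 ∨ s.2 = 5 → j < s.1) :
    Inv β L R N (n + 1) (j, 0) (g * β (of j)) :=
  ⟨fun _ => ex0 h j (hI.debt h hn j hj), fun h => by simp at h, fun h => by simp at h,
    fun h => by simp at h, fun h => by simp at h, fun h => by simp at h⟩

lemma inv_pos3 (h : Data N 0 β L R) {n : ℕ} (hn : n ≤ N) {s : Fin r × Fin 6} {g : FreeGroup (Fin r)}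
    (hI : Inv β L R N n s g) (hs : s.2 = 0 ∨ s.2 = 3 ∨ s.2 = 1) (j : Fin r) (hj : s.1 < j) :
    Inv β L R N (n + 1) (j, 3) (g * β (of j)) := by
  refine ⟨fun _ => ex0 h j (hI.debt h hn j (fun h' => ?_)), fun h => by simp at h,
    fun h => by simp at h, fun _ => ?_, fun h => by simp at h, fun h => by simp at h⟩
  · exfalso
    rcases hs with hs | hs | hs <;> rw [hs] at h' <;> simp at h'
  · obtain ⟨m, hm, h1⟩ := hI.ends h hn hs
    obtain ⟨d, hd⟩ := Nat.exists_eq_add_of_le (Fin.lt_def.1 hj : (s.1 : ℕ) + 1 ≤ j)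
    obtain ⟨m', hm', h2⟩ := R_le h d (s.1 + 1) (by have := j.2; omega)
    refine ⟨0, m * m', mul_mem hm hm', ?_⟩
    rw [h1, h2, ← hd, zero_add, pow_one]
    simp only [mul_assoc]

lemma inv_run3 (h : Data N 0 β L R) {n : ℕ} (hn : n ≤ N) {j : Fin r} {g : FreeGroup (Fin r)}
    (hI : Inv β L R N n (j, 3) g) : Inv β L R N (n + 1) (j, 3) (g * β (of j)) := by
  refine ⟨fun _ => ex0 h j (hI.debt h hn j (fun h' => ?_)), fun h => by simp at h,
    fun h => by simp at h, fun _ => ?_, fun h => by simp at h, fun h => by simp at h⟩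
  · simp at h'
  · obtain ⟨t, m, hm, h1⟩ := hI.h3 rfl
    exact ⟨t + 1, m, hm, by rw [h1, mul_assoc, ← pow_succ]⟩

lemma inv_two (h : Data N 0 β L R) {n : ℕ} (hn : n ≤ N) {s : Fin r × Fin 6} {g : FreeGroup (Fin r)}
    (hI : Inv β L R N n s g) (j : Fin r) (hj : s.2 = 2 ∨ s.2 = 4 ∨ s.2 = 5 → j < s.1) :
    Inv β L R N (n + 1) (j, 2) (g * β (of j)⁻¹) := by
  refine ⟨fun h => by simp at h, fun h => by simp at h, fun _ => ⟨1, by omega, ?_⟩,
    fun h => by simp at h, fun h => by simp at h, fun h => by simp at h⟩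
  rw [map_inv, pow_one, inv_mul_cancel_right]
  exact hI.debt h hn j hj

/-- `R k * E ^ (t+1) * (R k)⁻¹` ends with `x k` -/
lemma conj_R (h : Data N 0 β L R) (k : Fin r) (t : ℕ) :
    ∃ m ∈ M r, R k * β (of k) ^ (t + 1) * (R k)⁻¹ = m * of k := by
  have h4 := h.2.2.2 (k + 1) (Nat.zero_le _) k.2
  refine ⟨R (k + 1) * β (of k) ^ t * L (k + 1), mul_mem (mul_mem h4.2 (pow_mem (E_mem h k) t)) h4.1, ?_⟩
  have h3 := (h.2.2.1 k (Nat.zero_le _)).2
  have h2 := h.2.1 k (Nat.zero_le _)
  have hc : β (of k) ^ N * β (of k) ^ (t + 1) = β (of k) ^ (t + 1) * β (of k) ^ N := by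
    rw [← pow_add, ← pow_add, add_comm]
  rw [h3, mul_inv_rev, mul_assoc (R (k + 1)), hc]
  have h5 : R (k + 1) * (β (of k) ^ (t + 1) * β (of k) ^ N) * ((β (of k) ^ N)⁻¹ * (R (k + 1))⁻¹) =
      R (k + 1) * β (of k) ^ (t + 1) * (R (k + 1))⁻¹ := by group
  rw [h5, pow_succ]
  nth_rewrite 2 [h2]
  group

/-- `(L k)⁻¹ * E * L k` starts with `x k` -/
lemma conj_L (h : Data N 0 β L R) (k : Fin r) :
    (L k)⁻¹ * β (of k) * L k = of k * (R (k + 1) * L (k + 1)) := by
  have h3 := (h.2.2.1 k (Nat.zero_le _)).1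
  have h2 := h.2.1 k (Nat.zero_le _)
  have hc : (β (of k) ^ N)⁻¹ * β (of k) * β (of k) ^ N = β (of k) := by
    rw [mul_assoc, ← pow_succ', pow_succ, inv_mul_cancel_left]
  have h6 : (L k)⁻¹ * β (of k) * L k =
      (L (k + 1))⁻¹ * ((β (of k) ^ N)⁻¹ * β (of k) * β (of k) ^ N) * L (k + 1) := by
    rw [h3]
    group
  rw [h6, hc, h2]
  group

lemma inv_four (h : Data N 0 β L R) {n : ℕ} (hn : n ≤ N) {k : Fin r} {g : FreeGroup (Fin r)}
    (hI : Inv β L R N n (k, 3) g) (j : Fin r) (hj : (k : ℕ) = j + 1) :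
    Inv β L R N (n + 1) (j, 4) (g * β (of j)⁻¹) := by
  refine ⟨fun h => by simp at h, fun h => by simp at h, fun _ => ⟨1, by omega, ?_⟩,
    fun h => by simp at h, fun _ k' hk' => ?_, fun h => by simp at h⟩
  · rw [map_inv, pow_one, inv_mul_cancel_right]
    exact hI.debt h hn j (fun h' => by simp at h')
  · obtain rfl : k' = k := Fin.ext (by rw [hk', hj])
    obtain ⟨t, m, hm, h1⟩ := hI.h3 rfl
    obtain ⟨m', hm', h2⟩ := conj_R h k' t
    refine ⟨m * m', mul_mem hm hm', ?_⟩
    have h3 := h.2.1 j (Nat.zero_le _)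
    have h4 : (R k')⁻¹ * ((of j)⁻¹ * (L k')⁻¹) = β (of j)⁻¹ := by
      rw [map_inv, h3, ← hj]
      group
    have h5 : m * m' * of k' = m * R k' * β (of k') ^ (t + 1) * (R k')⁻¹ := by
      rw [mul_assoc m m', ← h2]
      group
    simp only
    rw [h5, ← h4, h1]
    group

lemma inv_five (h : Data N 0 β L R) {n : ℕ} {i : Fin r} {g : FreeGroup (Fin r)}
    (hI : Inv β L R N n (i, 4) g) (k : Fin r) (hk : (k : ℕ) = i + 1) :
    Inv β L R N (n + 1) (k, 5) (g * β (of k)) := by
  refine ⟨fun h => by simp at h, fun h => by simp at h, fun h => by simp at h,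
    fun h => by simp at h, fun h => by simp at h, fun _ => ?_⟩
  obtain ⟨m, hm, h1⟩ := hI.h4 rfl k hk
  have h4 := h.2.2.2 (k + 1) (Nat.zero_le _) k.2
  have h2 : g * β (of k) * L k = m * (of k * (of i)⁻¹ * of k) * (R (k + 1) * L (k + 1)) := by
    have h3 := conj_L h k
    calc g * β (of k) * L k = m * of k * (of i)⁻¹ * ((L k)⁻¹ * β (of k) * L k) := by
          rw [h1]
          group
      _ = _ := by
          rw [h3]
          group
  change g * β (of k) * L k ∈ M r
  rw [h2]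
  exact mul_mem (mul_mem hm (iso_mem hk)) (mul_mem h4.2 h4.1)

lemma inv_run5 (h : Data N 0 β L R) {n : ℕ} {k : Fin r} {g : FreeGroup (Fin r)}
    (hI : Inv β L R N n (k, 5) g) : Inv β L R N (n + 1) (k, 5) (g * β (of k)) := by
  refine ⟨fun h => by simp at h, fun h => by simp at h, fun h => by simp at h,
    fun h => by simp at h, fun h => by simp at h, fun _ => ?_⟩
  have h1 : g * L k ∈ M r := hI.h5 rfl
  have h4 := h.2.2.2 (k + 1) (Nat.zero_le _) k.2
  have h2 : g * β (of k) * L k = g * L k * (of k * (R (k + 1) * L (k + 1))) := by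
    rw [← conj_L h k]
    group
  change g * β (of k) * L k ∈ M r
  rw [h2]
  exact mul_mem h1 (mul_mem (of_mem k) (mul_mem h4.2 h4.1))

lemma inv_one (h : Data N 0 β L R) {n : ℕ} (hn : n ≤ N) {s : Fin r × Fin 6} {g : FreeGroup (Fin r)}
    (hI : Inv β L R N n s g) (hs : s.2 = 0 ∨ s.2 = 3 ∨ s.2 = 1) (j : Fin r) (hj : s.1 < j) :
    Inv β L R N (n + 1) (j, 1) (g * β (of j)⁻¹) := by
  refine ⟨fun h => by simp at h, fun _ => ⟨1, by omega, ?_⟩, fun h => by simp at h,
    fun h => by simp at h, fun h => by simp at h, fun h => by simp at h⟩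
  obtain ⟨m, hm, h1⟩ := hI.ends h hn hs
  obtain ⟨d, hd⟩ := Nat.exists_eq_add_of_le (Fin.lt_def.1 hj : (s.1 : ℕ) + 1 ≤ j)
  obtain ⟨m', hm', h2⟩ := R_le h d (s.1 + 1) (by have := j.2; omega)
  have h3 := (h.2.2.1 j (Nat.zero_le _)).2
  refine ⟨m * m', mul_mem hm hm', ?_⟩
  change g * β (of j)⁻¹ * β (of j) ^ 1 = m * m' * R (j + 1) * β (of j) ^ N
  rw [map_inv, pow_one, inv_mul_cancel_right, h1, h2, mul_assoc (m * m'), ← h3, ← Nat.succ_eq_add_one,
    Nat.succ_eq_add_one, ← hd, mul_assoc]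

lemma inv_run1 {n : ℕ} {j : Fin r} {g : FreeGroup (Fin r)}
    (hI : Inv β L R N n (j, 1) g) : Inv β L R N (n + 1) (j, 1) (g * β (of j)⁻¹) := by
  refine ⟨fun h => by simp at h, fun _ => ?_, fun h => by simp at h,
    fun h => by simp at h, fun h => by simp at h, fun h => by simp at h⟩
  obtain ⟨t, ht, m, hm, h1⟩ := hI.h1 rfl
  refine ⟨t + 1, by omega, m, hm, ?_⟩
  rw [← h1, map_inv, pow_succ', ← mul_assoc, inv_mul_cancel_right]

lemma inv_run2 {n : ℕ} {s : Fin r × Fin 6} (hs : s.2 = 2 ∨ s.2 = 4) {g : FreeGroup (Fin r)}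
    (hI : Inv β L R N n s g) : Inv β L R N (n + 1) (s.1, 2) (g * β (of s.1)⁻¹) := by
  refine ⟨fun h => by simp at h, fun h => by simp at h, fun _ => ?_,
    fun h => by simp at h, fun h => by simp at h, fun h => by simp at h⟩
  obtain ⟨t, ht, h1⟩ := hI.h2 hs
  refine ⟨t + 1, by omega, ?_⟩
  rwa [map_inv, pow_succ', ← mul_assoc, inv_mul_cancel_right]

lemma Inv.step (h : Data N 0 β L R) {n : ℕ} (hn : n ≤ N) {s s' : Fin r × Fin 6} {a : Fin r × Bool}
    {g : FreeGroup (Fin r)} (hI : Inv β L R N n s g) (hs : step s a = some s') :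
    Inv β L R N (n + 1) s' (g * β (ltr a)) := by
  obtain ⟨j, b⟩ := a
  obtain ⟨i, f⟩ := s
  unfold PP2.step at hs
  cases b
  · have hl : ltr (j, false) = (of j)⁻¹ := by simp [ltr]
    rw [hl]
    simp only [Bool.false_eq_true, if_false] at hs
    by_cases h03 : f = 0 ∨ f = 3
    · rw [if_pos h03] at hs
      split_ifs at hs with h1 h2 h3
      · obtain rfl := Option.some.inj hs
        exact inv_one h hn hI (by tauto) j h2
      · obtain rfl := Option.some.inj hs
        obtain ⟨h3, h4⟩ := h3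
        subst h3
        exact inv_four h hn hI j h4
      · obtain rfl := Option.some.inj hs
        refine inv_two h hn hI j fun h' => ?_
        exfalso
        rcases h03 with rfl | rfl <;> simp at h'
    · rw [if_neg h03] at hs
      by_cases hf1 : f = 1
      · rw [if_pos hf1] at hs
        subst hf1
        split_ifs at hs with h1
        · obtain rfl := Option.some.inj hs
          rcases h1 with h1 | h1
          · subst h1
            exact inv_run1 hI
          · exact inv_one h hn hI (by simp) j h1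
        · obtain rfl := Option.some.inj hs
          exact inv_two h hn hI j (by simp)
      · rw [if_neg hf1] at hs
        by_cases hf5 : f = 5
        · rw [if_pos hf5] at hs
          split_ifs at hs with h1
          obtain rfl := Option.some.inj hs
          exact inv_two h hn hI j (fun _ => h1)
        · rw [if_neg hf5] at hs
          have hf24 : f = 2 ∨ f = 4 := by
            fin_cases f <;> simp_all
          split_ifs at hs with h1
          obtain rfl := Option.some.inj hs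
          rcases h1 with h1 | h1
          · subst h1
            exact inv_run2 (s := (j, f)) hf24 hI
          · exact inv_two h hn hI j (fun _ => h1)
  · have hl : ltr (j, true) = of j := by simp [ltr]
    rw [hl]
    simp only [if_true] at hs
    by_cases h03 : f = 0 ∨ f = 3
    · rw [if_pos h03] at hs
      have h013 : f = 0 ∨ f = 3 ∨ f = 1 := by tauto
      have hno : ¬ (f = 2 ∨ f = 4 ∨ f = 5) := by
        rcases h03 with rfl | rfl <;> simp
      split_ifs at hs with h1 h2
      · obtain rfl := Option.some.inj hs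
        subst h1
        rcases h03 with rfl | rfl
        · exact inv_pos h hn hI j (by simp)
        · exact inv_run3 h hn hI
      · obtain rfl := Option.some.inj hs
        exact inv_pos3 h hn hI h013 j h2
      · obtain rfl := Option.some.inj hs
        exact inv_pos h hn hI j fun h' => absurd h' hno
    · rw [if_neg h03] at hs
      by_cases hf1 : f = 1
      · rw [if_pos hf1] at hs
        subst hf1
        split_ifs at hs with h1 h2
        · obtain rfl := Option.some.inj hs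
          exact inv_pos3 h hn hI (by simp) j h2
        · obtain rfl := Option.some.inj hs
          exact inv_pos h hn hI j (by simp)
      · rw [if_neg hf1] at hs
        by_cases hf5 : f = 5
        · rw [if_pos hf5] at hs
          subst hf5
          split_ifs at hs with h1 h2
          · obtain rfl := Option.some.inj hs
            subst h1
            exact inv_run5 h hI
          · obtain rfl := Option.some.inj hs
            exact inv_pos h hn hI j (fun _ => h2)
        · rw [if_neg hf5] at hs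
          have hf24 : f = 2 ∨ f = 4 := by
            fin_cases f <;> simp_all
          split_ifs at hs with h1 h2
          · obtain rfl := Option.some.inj hs
            exact inv_pos h hn hI j (fun _ => h1)
          · obtain rfl := Option.some.inj hs
            obtain ⟨h3, h4⟩ := h2
            subst h3
            exact inv_five h hI j h4

end Inv

end Pool.Agent.V7H20.PP2
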